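import Mathlib

set_option autoImplicit false

/-! The action of the affine group of a lattice on the words over the residues modulo two. -/

namespace Pool.Agent.TH114.Iso

/-- Digits for the lattice `Λ`. -/
structure Digits (Λ : Type) [AddCommGroup Λ] (n : ℕ) where
  ι : Fin n → Λ
  rem : Λ → Fin n
  quo : Λ → Λ
  dec : ∀ z, z = ι (rem z) + (quo z + quo z)
  rem_add : ∀ x q, rem (ι x + (q + q)) = x
  quo_add : ∀ x q, quo (ι x + (q + q)) = q
  sep : ∀ z : Λ, (∀ k : ℕ, ∃ q : Λ, z = (2 ^ k : ℕ) • q) → z = 0

variable {Λ : Type} [AddCommGroup Λ] {n : ℕ} (D : Digits Λ n)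

namespace Digits

theorem rem_add' (z q : Λ) : D.rem (z + (q + q)) = D.rem z := by
  conv_lhs => rw [D.dec z]
  rw [show D.ι (D.rem z) + (D.quo z + D.quo z) + (q + q) =
    D.ι (D.rem z) + ((D.quo z + q) + (D.quo z + q)) by abel, D.rem_add]

theorem quo_add' (z q : Λ) : D.quo (z + (q + q)) = D.quo z + q := by
  conv_lhs => rw [D.dec z]
  rw [show D.ι (D.rem z) + (D.quo z + D.quo z) + (q + q) =
    D.ι (D.rem z) + ((D.quo z + q) + (D.quo z + q)) by abel, D.quo_add]

theorem rem_ι (x : Fin n) : D.rem (D.ι x) = x := by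
  have := D.rem_add x 0
  simpa using this

theorem quo_ι (x : Fin n) : D.quo (D.ι x) = 0 := by
  have := D.quo_add x 0
  simpa using this

end Digits

/-- The affine group of the lattice. -/
abbrev Aff (Λ : Type) [AddCommGroup Λ] : Type := Λ ≃ᵃ[ℤ] Λ

/-- The affine map `x ↦ M x + v`. -/
def mkA (v : Λ) (M : Λ ≃ₗ[ℤ] Λ) : Aff Λ :=
  M.toAffineEquiv.trans (AffineEquiv.constVAdd ℤ Λ v)

@[simp] theorem mkA_apply (v : Λ) (M : Λ ≃ₗ[ℤ] Λ) (x : Λ) : mkA v M x = M x + v := by
  simp [mkA, add_comm]

@[simp] theorem mkA_linear (v : Λ) (M : Λ ≃ₗ[ℤ] Λ) : (mkA v M).linear = M := by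
  ext x
  rfl

theorem aff_apply (f : Aff Λ) (x : Λ) : f x = f.linear x + f 0 := by
  have := f.map_vadd 0 x
  simpa using this

theorem aff_ext {f g : Aff Λ} (h1 : f.linear = g.linear) (h2 : f 0 = g 0) : f = g := by
  ext x
  rw [aff_apply f, aff_apply g, h1, h2]

theorem mkA_eta (f : Aff Λ) : mkA (f 0) f.linear = f := by
  apply aff_ext <;> simp

/-- The linear part. -/
def lin : Aff Λ →* (Λ ≃ₗ[ℤ] Λ) := AffineEquiv.linearHom

@[simp] theorem lin_apply (f : Aff Λ) : lin f = f.linear := rfl

theorem mul_linear (f g : Aff Λ) : (f * g).linear = f.linear * g.linear := rfl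

theorem mul_apply' (f g : Aff Λ) (x : Λ) : (f * g) x = f (g x) := rfl

theorem one_apply' (x : Λ) : (1 : Aff Λ) x = x := rfl

theorem one_linear : (1 : Aff Λ).linear = 1 := rfl

/-- The section of an affine map at a letter. -/
def sec (f : Aff Λ) (x : Fin n) : Aff Λ := mkA (D.quo (f (D.ι x))) f.linear

/-- The letter to which a letter is sent. -/
def root (f : Aff Λ) (x : Fin n) : Fin n := D.rem (f (D.ι x))

theorem root_mul (f g : Aff Λ) (x : Fin n) : root D (f * g) x = root D f (root D g x) := by
  unfold root
  rw [mul_apply', D.dec (g (D.ι x)), D.rem_add]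
  rw [aff_apply f (D.ι (D.rem (g (D.ι x))) + _), aff_apply f (D.ι (D.rem (g (D.ι x)))), map_add,
    map_add, add_right_comm, D.rem_add']

theorem sec_mul (f g : Aff Λ) (x : Fin n) : sec D (f * g) x = sec D f (root D g x) * sec D g x := by
  unfold sec root
  apply aff_ext
  · simp only [mkA_linear, mul_linear]
  · simp only [mkA_apply, map_zero, zero_add, mul_apply']
    conv_lhs => rw [D.dec (g (D.ι x))]
    rw [aff_apply f (D.ι (D.rem (g (D.ι x))) + _), map_add, map_add, add_right_comm, D.quo_add',
      ← aff_apply f, add_comm]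

theorem root_one (x : Fin n) : root D (1 : Aff Λ) x = x := by
  simp [root, D.rem_ι]

theorem sec_one (x : Fin n) : sec D (1 : Aff Λ) x = 1 := by
  apply aff_ext
  · simp [sec]
  · simp [sec, D.quo_ι]

/-- The action on words. -/
def wact : Aff Λ → List (Fin n) → List (Fin n)
  | _, [] => []
  | f, x :: w => root D f x :: wact (sec D f x) w

theorem wact_mul (w : List (Fin n)) : ∀ f g : Aff Λ, wact D (f * g) w = wact D f (wact D g w) := by
  induction w with
  | nil => intro f g; rfl
  | cons x w ih => intro f g; simp only [wact, root_mul, sec_mul, ih]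

theorem wact_one (w : List (Fin n)) : wact D (1 : Aff Λ) w = w := by
  induction w with
  | nil => rfl
  | cons x w ih => simp only [wact, root_one, sec_one, ih]

/-- The action as a homomorphism. -/
def wperm : Aff Λ →* Equiv.Perm (List (Fin n)) where
  toFun f :=
    { toFun := wact D f
      invFun := wact D f⁻¹
      left_inv := fun w => by rw [← wact_mul, inv_mul_cancel, wact_one]
      right_inv := fun w => by rw [← wact_mul, mul_inv_cancel, wact_one] }
  map_one' := by ext1 w; exact wact_one D w
  map_mul' f g := by ext1 w; exact wact_mul D w f g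

/-- The action on letters as a homomorphism. -/
def rperm : Aff Λ →* Equiv.Perm (Fin n) where
  toFun f :=
    { toFun := root D f
      invFun := root D f⁻¹
      left_inv := fun w => by rw [← root_mul, inv_mul_cancel, root_one]
      right_inv := fun w => by rw [← root_mul, mul_inv_cancel, root_one] }
  map_one' := by ext1 w; exact root_one D w
  map_mul' f g := by ext1 w; exact root_mul D f g w

theorem wperm_injective : Function.Injective (wperm D : Aff Λ →* _) := by
  rw [injective_iff_map_eq_one]
  intro f hf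
  have h0 : ∀ w, wact D f w = w := fun w => congrArg (fun p : Equiv.Perm _ => p w) hf
  have key : ∀ (k : ℕ) (f : Aff Λ), (∀ w, wact D f w = w) → ∀ x : Λ, ∃ q : Λ, f x - x = (2 ^ k : ℕ) • q := by
    intro k
    induction k with
    | zero => intro f _ x; exact ⟨f x - x, by simp⟩
    | succ k ih =>
      intro f hf x
      have h1 : ∀ y, root D f y = y ∧ ∀ w, wact D (sec D f y) w = w := by
        intro y
        refine ⟨?_, fun w => ?_⟩
        · have := hf [y]
          simpa [wact] using this
        · have := hf (y :: w)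
          simp only [wact, List.cons.injEq] at this
          exact this.2
      obtain ⟨q, hq⟩ := ih (sec D f (D.rem x)) (h1 _).2 (D.quo x)
      refine ⟨q, ?_⟩
      have h2 : f (D.ι (D.rem x)) = D.ι (D.rem x) + (D.quo (f (D.ι (D.rem x))) + D.quo (f (D.ι (D.rem x)))) := by
        conv_lhs => rw [D.dec (f (D.ι (D.rem x)))]
        have := (h1 (D.rem x)).1
        unfold root at this
        rw [this]
      have h3 : sec D f (D.rem x) (D.quo x) = f.linear (D.quo x) + D.quo (f (D.ι (D.rem x))) := by
        simp [sec]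
      rw [h3] at hq
      have h4 : f x = f.linear (D.quo x) + f.linear (D.quo x) + f (D.ι (D.rem x)) := by
        conv_lhs => rw [D.dec x]
        rw [aff_apply f, map_add, map_add, aff_apply f (D.ι (D.rem x))]
        abel
      have h5 : f x - x = (f.linear (D.quo x) + D.quo (f (D.ι (D.rem x))) - D.quo x) +
          (f.linear (D.quo x) + D.quo (f (D.ι (D.rem x))) - D.quo x) := by
        rw [h4, h2]
        conv_lhs => rw [D.dec x]
        simp only [D.rem_add, D.quo_add]
        abel
      rw [h5, hq, pow_succ, mul_smul, two_smul, smul_add]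
  ext x
  rw [one_apply']
  have := D.sep (f x - x) (fun k => key k f h0 x)
  exact sub_eq_zero.mp this

end Pool.Agent.TH114.Iso
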