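import Mathlib
import Pool.Agent.TH114.Iso.Aff

set_option autoImplicit false

/-! The digits of the lattice `ℤ⁴` and finite sets of translations closed under sections. -/

namespace Pool.Agent.TH114.Iso

/-- A size function for a lattice with digits. -/
structure Size {Λ : Type} [AddCommGroup Λ] {n : ℕ} (D : Digits Λ n) where
  ν : Λ → ℕ
  add : ∀ a b, ν (a + b) ≤ ν a + ν b
  quo : ∀ z, 2 * ν (D.quo z) ≤ ν z + 1
  fin : ∀ C, {z | ν z ≤ C}.Finite

/-- The digits of the integers. -/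
def dZ : Digits ℤ 2 where
  ι x := (x : ℤ)
  rem z := ⟨(z % 2).toNat, by omega⟩
  quo z := z / 2
  dec z := by
    simp only
    omega
  rem_add x q := by
    apply Fin.ext
    simp only
    have := x.2
    omega
  quo_add x q := by
    have := x.2
    omega
  sep z h := by
    by_contra hz
    obtain ⟨q, hq⟩ := h z.natAbs
    have h1 : z.natAbs = 2 ^ z.natAbs * q.natAbs := by
      conv_lhs => rw [hq]
      rw [nsmul_eq_mul, Int.natAbs_mul]
      simp
    have h2 : q.natAbs ≠ 0 := by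
      intro h
      rw [h, mul_zero] at h1
      exact hz (Int.natAbs_eq_zero.1 h1)
    have h3 : z.natAbs < 2 ^ z.natAbs := Nat.lt_two_pow_self
    have h4 : 2 ^ z.natAbs * 1 ≤ 2 ^ z.natAbs * q.natAbs := Nat.mul_le_mul_left _ (by omega)
    omega

/-- The size of an integer. -/
def sZ : Size dZ where
  ν := Int.natAbs
  add a b := Int.natAbs_add_le a b
  quo z := by
    change 2 * (z / 2).natAbs ≤ z.natAbs + 1
    omega
  fin C := by
    refine (Set.finite_Icc (-(C : ℤ)) C).subset ?_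
    intro z hz
    simp only [Set.mem_ofPred_eq] at hz
    rw [Set.mem_Icc]
    omega

section Prod

variable {Λ₁ Λ₂ : Type} [AddCommGroup Λ₁] [AddCommGroup Λ₂] {n₁ n₂ : ℕ}

/-- The digits of a product. -/
def dProd (D₁ : Digits Λ₁ n₁) (D₂ : Digits Λ₂ n₂) : Digits (Λ₁ × Λ₂) (n₁ * n₂) where
  ι x := (D₁.ι (finProdFinEquiv.symm x).1, D₂.ι (finProdFinEquiv.symm x).2)
  rem z := finProdFinEquiv (D₁.rem z.1, D₂.rem z.2)
  quo z := (D₁.quo z.1, D₂.quo z.2)
  dec z := by
    ext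
    · simp only [Equiv.symm_apply_apply, Prod.fst_add]
      exact D₁.dec z.1
    · simp only [Equiv.symm_apply_apply, Prod.snd_add]
      exact D₂.dec z.2
  rem_add x q := by
    simp only [Prod.fst_add, Prod.snd_add, D₁.rem_add, D₂.rem_add, Prod.mk.eta,
      Equiv.apply_symm_apply]
  quo_add x q := by
    simp only [Prod.fst_add, Prod.snd_add, D₁.quo_add, D₂.quo_add, Prod.mk.eta]
  sep z h := by
    ext
    · refine D₁.sep _ fun k => ?_
      obtain ⟨q, hq⟩ := h k
      exact ⟨q.1, by rw [congrArg Prod.fst hq, Prod.smul_fst]⟩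
    · refine D₂.sep _ fun k => ?_
      obtain ⟨q, hq⟩ := h k
      exact ⟨q.2, by rw [congrArg Prod.snd hq, Prod.smul_snd]⟩

/-- The size in a product. -/
def sProd {D₁ : Digits Λ₁ n₁} {D₂ : Digits Λ₂ n₂} (S₁ : Size D₁) (S₂ : Size D₂) :
    Size (dProd D₁ D₂) where
  ν z := max (S₁.ν z.1) (S₂.ν z.2)
  add a b := by
    have h1 := S₁.add a.1 b.1
    have h2 := S₂.add a.2 b.2
    simp only [Prod.fst_add, Prod.snd_add]
    omega
  quo z := by
    have h1 := S₁.quo z.1
    have h2 := S₂.quo z.2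
    change 2 * max (S₁.ν (D₁.quo z.1)) (S₂.ν (D₂.quo z.2)) ≤ _
    omega
  fin C := by
    refine ((S₁.fin C).prod (S₂.fin C)).subset ?_
    intro z hz
    simp only [Set.mem_ofPred_eq] at hz
    rw [Set.mem_prod]
    simp only [Set.mem_ofPred_eq]
    omega

end Prod

/-- The lattice. -/
abbrev L4 : Type := (ℤ × ℤ) × (ℤ × ℤ)

/-- The digits of the lattice. -/
def d4 : Digits L4 16 := dProd (dProd dZ dZ) (dProd dZ dZ)

/-- The size in the lattice. -/
def s4 : Size d4 := sProd (sProd sZ sZ) (sProd sZ sZ)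

/-- A finite set of translations closed under sections. -/
theorem exists_box {Λ : Type} [AddCommGroup Λ] {n : ℕ} (D : Digits Λ n) (S : Size D)
    {L : Type} [Finite L] (ℓ : L → Λ ≃ₗ[ℤ] Λ) (E : Finset Λ) :
    ∃ (N : ℕ) (val : Fin N → Λ) (nxt : L → Fin N → Fin n → Fin N),
      (∀ z ∈ E, ∃ v, val v = z) ∧
      ∀ l v x, val (nxt l v x) = D.quo (ℓ l (D.ι x) + val v) := by
  classical
  have := Fintype.ofFinite L
  obtain ⟨K, hK⟩ : ∃ K : ℕ, ∀ l x, S.ν (ℓ l (D.ι x)) ≤ K :=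
    ⟨Finset.univ.sup fun p : L × Fin n => S.ν (ℓ p.1 (D.ι p.2)), fun l x =>
      Finset.le_sup (f := fun p : L × Fin n => S.ν (ℓ p.1 (D.ι p.2))) (Finset.mem_univ (l, x))⟩
  obtain ⟨K', hK'⟩ : ∃ K' : ℕ, ∀ z ∈ E, S.ν z ≤ K' := ⟨E.sup S.ν, fun z hz => Finset.le_sup hz⟩
  set C := K + 1 + K' with hC
  set B : Finset Λ := (S.fin C).toFinset with hB
  have hmem : ∀ z, z ∈ B ↔ S.ν z ≤ C := by
    intro z
    rw [hB, Set.Finite.mem_toFinset, Set.mem_ofPred_eq]
  let e : B ≃ Fin B.card := B.equivFin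
  have hcl : ∀ l (v : Fin B.card) x, D.quo (ℓ l (D.ι x) + (e.symm v).1) ∈ B := by
    intro l v x
    rw [hmem]
    have h1 := S.quo (ℓ l (D.ι x) + (e.symm v).1)
    have h2 := S.add (ℓ l (D.ι x)) (e.symm v).1
    have h3 := hK l x
    have h4 := (hmem _).1 (e.symm v).2
    omega
  refine ⟨B.card, fun v => (e.symm v).1, fun l v x => e ⟨_, hcl l v x⟩, ?_, ?_⟩
  · intro z hz
    refine ⟨e ⟨z, (hmem z).2 ?_⟩, by simp⟩
    have := hK' z hz
    omega
  · intro l v x
    simp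

end Pool.Agent.TH114.Iso
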