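import Mathlib

set_option autoImplicit false

/-! Finite invertible automata, the groups they generate, and their tables. -/

namespace Pool.Agent.TH114.Iso

/-- A finite invertible automaton with the states `0, …, m-1` over the alphabet `0, …, n-1`:
`next s x` is the transition `τ(s, x)` and `out s` is the permutation `λ(s, ·)` of the alphabet. -/
structure Automaton (m n : ℕ) where
  next : Fin m → Fin n → Fin m
  out : Fin m → Equiv.Perm (Fin n)

namespace Automaton

variable {m n : ℕ} (A : Automaton m n)

/-- The action of a state on the finite words: `s(x w) = λ(s, x) τ(s, x)(w)`. -/
def act : Fin m → List (Fin n) → List (Fin n)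
  | _, [] => []
  | s, x :: w => A.out s x :: act (A.next s x) w

/-- The action of the inverse of a state. -/
def actInv : Fin m → List (Fin n) → List (Fin n)
  | _, [] => []
  | s, y :: w => (A.out s).symm y :: actInv (A.next s ((A.out s).symm y)) w

theorem actInv_act (w : List (Fin n)) : ∀ s, A.actInv s (A.act s w) = w := by
  induction w with
  | nil => intro s; rfl
  | cons x w ih => intro s; simp [act, actInv, ih]

theorem act_actInv (w : List (Fin n)) : ∀ s, A.act s (A.actInv s w) = w := by
  induction w with
  | nil => intro s; rfl
  | cons x w ih => intro s; simp [act, actInv, ih]

/-- The permutation of the set of words defined by a state. -/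
def perm (s : Fin m) : Equiv.Perm (List (Fin n)) where
  toFun := A.act s
  invFun := A.actInv s
  left_inv w := A.actInv_act w s
  right_inv w := A.act_actInv w s

/-- The self-similar group generated by all states of the automaton. -/
def group : Subgroup (Equiv.Perm (List (Fin n))) := Subgroup.closure (Set.range A.perm)

/-- The tables of the automaton: the number of states, the number of letters, and for each state
`s` the list over the letters `x` of the pairs `(τ(s, x), λ(s, x))`. -/
def tables : ℕ × ℕ × List (List (ℕ × ℕ)) :=
  (m, n, List.ofFn fun s => List.ofFn fun x => ((A.next s x : ℕ), (A.out s x : ℕ)))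

end Automaton

end Pool.Agent.TH114.Iso
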