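import Mathlib
import Pool.Agent.TH114.Iso.Box
import Pool.Agent.TH114.Iso.Defs

set_option autoImplicit false

/-! Automata whose states are words over the states of a finite affine automaton. -/

namespace Pool.Agent.TH114.Iso

section

variable {Λ : Type} [AddCommGroup Λ] {n : ℕ} (D : Digits Λ n) {L : Type} (ℓ : L → Λ ≃ₗ[ℤ] Λ)
  {N : ℕ} (val : Fin N → Λ) (nxt : L → Fin N → Fin n → Fin N)

/-- The affine map of a letter with a translation. -/
def af (s : L × Fin N) : Aff Λ := mkA (val s.2) (ℓ s.1)

/-- The value of a word. -/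
def ev (q : List (L × Fin N)) : Aff Λ := (q.map (af ℓ val)).prod

/-- One step: the section and the image of a letter. -/
def run : List (L × Fin N) → Fin n → List (L × Fin N) × Fin n
  | [], x => ([], x)
  | s :: q, x => ((s.1, nxt s.1 s.2 (run q x).2) :: (run q x).1, root D (af ℓ val s) (run q x).2)

theorem run_spec (hn : ∀ l v x, val (nxt l v x) = D.quo (ℓ l (D.ι x) + val v))
    (q : List (L × Fin N)) (x : Fin n) :
    (run D ℓ val nxt q x).2 = root D (ev ℓ val q) x ∧
      ev ℓ val (run D ℓ val nxt q x).1 = sec D (ev ℓ val q) x := by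
  induction q with
  | nil => exact ⟨(root_one D x).symm, (sec_one D x).symm⟩
  | cons s q ih =>
    have h1 : ev ℓ val (s :: q) = af ℓ val s * ev ℓ val q := by simp [ev]
    refine ⟨?_, ?_⟩
    · rw [h1, root_mul, ← ih.1]
      rfl
    · rw [h1, sec_mul, ← ih.1, ← ih.2]
      have h2 : ev ℓ val (run D ℓ val nxt (s :: q) x).1 =
          af ℓ val (s.1, nxt s.1 s.2 (run D ℓ val nxt q x).2) *
            ev ℓ val (run D ℓ val nxt q x).1 := by simp [ev, run]
      rw [h2]
      congr 1
      unfold af sec
      apply aff_ext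
      · simp
      · simp only [mkA_apply, map_zero, zero_add, mkA_linear]
        exact hn _ _ _

/-- All words over a word of letters. -/
def sects (N : ℕ) : List L → List (List (L × Fin N))
  | [] => [[]]
  | l :: u => (sects N u).flatMap fun q => (List.finRange N).map fun v => (l, v) :: q

theorem mem_sects (u : List L) (q : List (L × Fin N)) : q ∈ sects N u ↔ q.map Prod.fst = u := by
  induction u generalizing q with
  | nil => simp [sects]
  | cons l u ih =>
    simp only [sects, List.mem_flatMap, ih, List.mem_map, List.mem_finRange, true_and]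
    constructor
    · rintro ⟨q', h1, v, rfl⟩
      simp [h1]
    · intro h
      match q, h with
      | s :: q', h =>
        simp only [List.map_cons, List.cons.injEq] at h
        exact ⟨q', h.2, s.2, by rw [← h.1]⟩

theorem run_fst (q : List (L × Fin N)) (x : Fin n) :
    (run D ℓ val nxt q x).1.map Prod.fst = q.map Prod.fst := by
  induction q with
  | nil => rfl
  | cons s q ih => simp [run, ih]

/-- The list of the states. -/
def stl (N : ℕ) (us : List (List L)) : List (List (L × Fin N)) := us.flatMap (sects N)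

theorem mem_stl (us : List (List L)) (q : List (L × Fin N)) :
    q ∈ stl N us ↔ q.map Prod.fst ∈ us := by
  simp only [stl, List.mem_flatMap, mem_sects]
  constructor
  · rintro ⟨u, h1, rfl⟩
    exact h1
  · intro h
    exact ⟨_, h, rfl⟩

theorem run_mem {us : List (List L)} {q : List (L × Fin N)} (h : q ∈ stl N us) (x : Fin n) :
    (run D ℓ val nxt q x).1 ∈ stl N us := by
  rw [mem_stl, run_fst, ← mem_stl (N := N)]
  exact h

variable [DecidableEq L]

/-- The automaton. -/
def wordAut (us : List (List L)) : Automaton (stl N us).length n where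
  next i x := ⟨(stl N us).idxOf (run D ℓ val nxt (stl N us)[i] x).1,
    List.idxOf_lt_length_iff.2 (run_mem D ℓ val nxt (List.getElem_mem _) x)⟩
  out i := rperm D (ev ℓ val (stl N us)[i])

theorem wordAut_act (hn : ∀ l v x, val (nxt l v x) = D.quo (ℓ l (D.ι x) + val v))
    (us : List (List L)) (w : List (Fin n)) : ∀ i, (wordAut D ℓ val nxt us).act i w =
      wact D (ev ℓ val (stl N us)[i]) w := by
  induction w with
  | nil => intro i; rfl
  | cons x w ih =>
    intro i
    simp only [Automaton.act, wact, ih]
    congr 2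
    have h1 := (run_spec D ℓ val nxt hn (stl N us)[i] x).2
    rw [← h1]
    congr 1
    exact List.getElem_idxOf _

theorem wordAut_group (hn : ∀ l v x, val (nxt l v x) = D.quo (ℓ l (D.ι x) + val v))
    (us : List (List L)) : (wordAut D ℓ val nxt us).group =
      (Subgroup.closure {f | ∃ q ∈ stl N us, ev ℓ val q = f}).map (wperm D) := by
  rw [MonoidHom.map_closure, Automaton.group]
  congr 1
  ext p
  constructor
  · rintro ⟨i, rfl⟩
    refine ⟨_, ⟨_, List.getElem_mem i.2, rfl⟩, ?_⟩
    ext1 w
    exact (wordAut_act D ℓ val nxt hn us w i).symm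
  · rintro ⟨_, ⟨q, hq, rfl⟩, rfl⟩
    obtain ⟨i, hi, rfl⟩ := List.getElem_of_mem hq
    refine ⟨⟨i, hi⟩, ?_⟩
    ext1 w
    exact wordAut_act D ℓ val nxt hn us w ⟨i, hi⟩

/-- The linear value of a word of letters. -/
def lv (u : List L) : Λ ≃ₗ[ℤ] Λ := (u.map ℓ).prod

omit [DecidableEq L] in
theorem ev_linear (q : List (L × Fin N)) : (ev ℓ val q).linear = lv ℓ (q.map Prod.fst) := by
  induction q with
  | nil => rfl
  | cons s q ih =>
    have h1 : ev ℓ val (s :: q) = af ℓ val s * ev ℓ val q := by simp [ev]
    rw [h1, mul_linear, ih]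
    simp [lv, af]

omit [DecidableEq L] in
theorem comap_le_of (us : List (List L)) (E : Finset Λ)
    (hE : AddSubgroup.closure (E : Set Λ) = ⊤) (K : Subgroup (Aff Λ))
    (htr : ∀ z ∈ E, mkA z (1 : Λ ≃ₗ[ℤ] Λ) ∈ K) (hlin : ∀ u ∈ us, mkA 0 (lv ℓ u) ∈ K) :
    (Subgroup.closure {M | ∃ u ∈ us, lv ℓ u = M}).comap (lin (Λ := Λ)) ≤ K := by
  have htr' : ∀ z : Λ, mkA z (1 : Λ ≃ₗ[ℤ] Λ) ∈ K := by
    intro z
    have hz : z ∈ AddSubgroup.closure (E : Set Λ) := by rw [hE]; trivial
    induction hz using AddSubgroup.closure_induction with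
    | mem z hz => exact htr z hz
    | zero =>
      have : mkA (0 : Λ) (1 : Λ ≃ₗ[ℤ] Λ) = 1 := by
        apply aff_ext
        · rw [mkA_linear, one_linear]
        · simp
      rw [this]
      exact K.one_mem
    | add a b _ _ ha hb =>
      have : mkA (a + b) (1 : Λ ≃ₗ[ℤ] Λ) = mkA a 1 * mkA b 1 := by
        apply aff_ext
        · simp [mul_linear]
        · simp [mul_apply', add_comm]
      rw [this]
      exact K.mul_mem ha hb
    | neg a _ ha =>
      have : mkA (-a) (1 : Λ ≃ₗ[ℤ] Λ) = (mkA a 1)⁻¹ := by
        rw [eq_inv_iff_mul_eq_one]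
        apply aff_ext
        · simp [mul_linear, one_linear]
        · simp [mul_apply']
      rw [this]
      exact K.inv_mem ha
  have hlin' : ∀ M ∈ Subgroup.closure {M | ∃ u ∈ us, lv ℓ u = M}, mkA 0 M ∈ K := by
    intro M hM
    induction hM using Subgroup.closure_induction with
    | mem M hM =>
      obtain ⟨u, hu, rfl⟩ := hM
      exact hlin u hu
    | one =>
      have : mkA (0 : Λ) (1 : Λ ≃ₗ[ℤ] Λ) = 1 := by
        apply aff_ext
        · rw [mkA_linear, one_linear]
        · simp
      rw [this]
      exact K.one_mem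
    | mul a b _ _ ha hb =>
      have : mkA 0 (a * b) = mkA 0 a * mkA 0 b := by
        apply aff_ext
        · simp [mul_linear]
        · simp [mul_apply']
      rw [this]
      exact K.mul_mem ha hb
    | inv a _ ha =>
      have : mkA 0 a⁻¹ = (mkA 0 a)⁻¹ := by
        rw [eq_inv_iff_mul_eq_one]
        apply aff_ext
        · simp [mul_linear, one_linear]
        · simp [mul_apply']
      rw [this]
      exact K.inv_mem ha
  intro f hf
  rw [Subgroup.mem_comap, lin_apply] at hf
  have : f = mkA (f 0) 1 * mkA 0 f.linear := by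
    apply aff_ext
    · simp [mul_linear]
    · simp [mul_apply']
  rw [this]
  exact K.mul_mem (htr' _) (hlin' _ hf)

omit [DecidableEq L] in
theorem closure_states (us : List (List L)) (E : Finset Λ) (hE0 : (0 : Λ) ∈ E)
    (hE : AddSubgroup.closure (E : Set Λ) = ⊤) (hv : ∀ z ∈ E, ∃ v, val v = z)
    (hne : ∃ u ∈ us, u ≠ []) :
    Subgroup.closure {f | ∃ q ∈ stl N us, ev ℓ val q = f} =
      (Subgroup.closure {M | ∃ u ∈ us, lv ℓ u = M}).comap (lin (Λ := Λ)) := by
  apply le_antisymm
  · rw [Subgroup.closure_le]
    rintro _ ⟨q, hq, rfl⟩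
    rw [SetLike.mem_coe, Subgroup.mem_comap, lin_apply, ev_linear]
    exact Subgroup.subset_closure ⟨_, (mem_stl us q).1 hq, rfl⟩
  · set K := Subgroup.closure {f | ∃ q ∈ stl N us, ev ℓ val q = f} with hK
    obtain ⟨v0, hv0⟩ := hv 0 hE0
    -- the word with zero translations
    have hzero : ∀ u : List L, ev ℓ val (u.map fun l => (l, v0)) = mkA 0 (lv ℓ u) := by
      intro u
      apply aff_ext
      · rw [ev_linear, mkA_linear]
        congr 1
        rw [List.map_map]
        conv_rhs => rw [← List.map_id u]
        rfl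
      · have e : mkA 0 (lv ℓ u) 0 = 0 := by simp
        rw [e]
        clear e
        induction u with
        | nil => rfl
        | cons l u ih =>
          have h1 : ev ℓ val ((l :: u).map fun l => (l, v0)) =
            af ℓ val (l, v0) * ev ℓ val (u.map fun l => (l, v0)) := by simp [ev]
          rw [h1, mul_apply', ih]
          simp [af, hv0]
    have hlin : ∀ u ∈ us, mkA 0 (lv ℓ u) ∈ K := by
      intro u hu
      rw [← hzero]
      refine Subgroup.subset_closure ⟨_, ?_, rfl⟩
      rw [mem_stl, List.map_map]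
      have : u.map (Prod.fst ∘ fun l => (l, v0)) = u := by
        conv_rhs => rw [← List.map_id u]
        rfl
      rw [this]
      exact hu
    have htr : ∀ z ∈ E, mkA z (1 : Λ ≃ₗ[ℤ] Λ) ∈ K := by
      intro z hz
      obtain ⟨u, hu, hne⟩ := hne
      obtain ⟨v, hv⟩ := hv z hz
      obtain ⟨l, u', rfl⟩ := List.exists_cons_of_ne_nil hne
      have h1 : ev ℓ val ((l, v) :: u'.map fun l => (l, v0)) ∈ K := by
        refine Subgroup.subset_closure ⟨_, ?_, rfl⟩
        rw [mem_stl, List.map_cons, List.map_map]
        have : u'.map (Prod.fst ∘ fun l => (l, v0)) = u' := by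
          conv_rhs => rw [← List.map_id u']
          rfl
        rw [this]
        exact hu
      have h2 := hlin _ hu
      have h3 : ev ℓ val ((l, v) :: u'.map fun l => (l, v0)) =
          mkA z 1 * mkA 0 (lv ℓ (l :: u')) := by
        have h1 : ev ℓ val ((l, v) :: u'.map fun l => (l, v0)) =
            af ℓ val (l, v) * ev ℓ val (u'.map fun l => (l, v0)) := by simp [ev]
        rw [h1, hzero]
        apply aff_ext
        · simp [mul_linear, af, lv]
        · simp [mul_apply', af, hv]
      rw [h3] at h1
      exact (Subgroup.mul_mem_cancel_right K h2).1 h1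
    exact comap_le_of ℓ us E hE K htr hlin

end

end Pool.Agent.TH114.Iso
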