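import Mathlib
import Pool.Agent.TH114.Iso.Words

set_option autoImplicit false

/-! The tables of the word automata are computable. -/

namespace Pool.Agent.TH114.Iso

section

variable {Λ : Type} [AddCommGroup Λ] {n : ℕ} (D : Digits Λ n) {L : Type} [Primcodable L] [Finite L]
  (ℓ : L → Λ ≃ₗ[ℤ] Λ) {N : ℕ} (val : Fin N → Λ) (nxt : L → Fin N → Fin n → Fin N)

theorem run_primrec : Primrec₂ (run D ℓ val nxt) := by
  have h : Primrec (fun p : List (L × Fin N) × Fin n =>
      (p.1.foldr (fun s r => ((s.1, nxt s.1 s.2 r.2) :: r.1, root D (af ℓ val s) r.2))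
        (([], p.2) : List (L × Fin N) × Fin n))) := by
    refine Primrec.list_foldr (h := fun (_ : List (L × Fin N) × Fin n)
      (b : (L × Fin N) × (List (L × Fin N) × Fin n)) =>
        ((b.1.1, nxt b.1.1 b.1.2 b.2.2) :: b.2.1, root D (af ℓ val b.1) b.2.2))
      Primrec.fst ?_ ?_
    · exact Primrec.pair (Primrec.const []) Primrec.snd
    · refine Primrec.pair ?_ ?_
      · refine Primrec.list_cons.comp ?_ (Primrec.fst.comp (Primrec.snd.comp Primrec.snd))
        have h1 : Primrec (fun b : (L × Fin N) × Fin n => (b.1.1, nxt b.1.1 b.1.2 b.2)) :=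
          Primrec.dom_finite _
        exact h1.comp (Primrec.pair (Primrec.fst.comp Primrec.snd)
          (Primrec.snd.comp (Primrec.snd.comp Primrec.snd)))
      · have h1 : Primrec (fun b : (L × Fin N) × Fin n => root D (af ℓ val b.1) b.2) :=
          Primrec.dom_finite _
        exact h1.comp (Primrec.pair (Primrec.fst.comp Primrec.snd)
          (Primrec.snd.comp (Primrec.snd.comp Primrec.snd)))
  refine h.of_eq ?_
  rintro ⟨q, x⟩
  induction q with
  | nil => rfl
  | cons s q ih =>
    simp only [List.foldr_cons, run] at ih ⊢
    rw [ih]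

omit [Finite L] in
theorem sects_primrec : Primrec (sects (L := L) N) := by
  have h : Primrec (fun u : List L =>
      u.foldr (fun l qs => qs.flatMap fun q => (List.finRange N).map fun v => (l, v) :: q)
        ([[]] : List (List (L × Fin N)))) := by
    refine Primrec.list_foldr (h := fun (_ : List L) (b : L × List (List (L × Fin N))) =>
      b.2.flatMap fun q => (List.finRange N).map fun v => (b.1, v) :: q) Primrec.id
      (Primrec.const _) ?_
    refine Primrec.list_flatMap (Primrec.snd.comp Primrec.snd) ?_
    refine Primrec.list_map (Primrec.const _) ?_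
    refine Primrec.list_cons.comp ?_ (Primrec.snd.comp Primrec.fst)
    exact Primrec.pair (Primrec.fst.comp (Primrec.snd.comp (Primrec.fst.comp Primrec.fst)))
      Primrec.snd
  refine h.of_eq ?_
  intro u
  induction u with
  | nil => rfl
  | cons l u ih =>
    simp only [List.foldr_cons, sects] at ih ⊢
    rw [ih]

omit [Finite L] in
theorem stl_primrec : Primrec (stl (L := L) N) :=
  Primrec.list_flatMap Primrec.id (sects_primrec.comp Primrec.snd).to₂

variable [DecidableEq L]

omit [Primcodable L] [Finite L] in
theorem wordAut_tables (us : List (List L)) : (wordAut D ℓ val nxt us).tables =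
    ((stl N us).length, n, (stl N us).map fun q => (List.finRange n).map fun x =>
      ((stl N us).idxOf (run D ℓ val nxt q x).1, ((root D (ev ℓ val q) x : Fin n) : ℕ))) := by
  unfold Automaton.tables
  congr 2
  conv_rhs => rw [← List.ofFn_getElem (xs := stl N us), List.map_ofFn, List.ofFn_getElem]
  congr 1
  ext1 i
  rw [Function.comp, List.finRange, List.map_ofFn]
  rfl

theorem tables_primrec (hn : ∀ l v x, val (nxt l v x) = D.quo (ℓ l (D.ι x) + val v)) :
    Primrec (fun us : List (List L) => (wordAut D ℓ val nxt us).tables) := by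
  have h : Primrec (fun us : List (List L) =>
      ((stl N us).length, n, (stl N us).map fun q => (List.finRange n).map fun x =>
        ((stl N us).idxOf (run D ℓ val nxt q x).1, ((run D ℓ val nxt q x).2 : ℕ)))) := by
    refine Primrec.pair (Primrec.list_length.comp stl_primrec)
      (Primrec.pair (Primrec.const n) ?_)
    refine Primrec.list_map stl_primrec ?_
    refine Primrec.list_map (Primrec.const _) ?_
    have hr : Primrec (fun p : (List (List L) × List (L × Fin N)) × Fin n =>
        run D ℓ val nxt p.1.2 p.2) :=
      (run_primrec D ℓ val nxt).comp (Primrec.snd.comp Primrec.fst) Primrec.snd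
    refine Primrec.pair ?_ ?_
    · have e : (List.instBEq : BEq (List (L × Fin N))) = instBEqOfDecidableEq :=
        lawful_beq_subsingleton _ _
      rw [e]
      exact Primrec.list_idxOf.comp (Primrec.fst.comp hr)
        (stl_primrec.comp (Primrec.fst.comp Primrec.fst))
    · exact (Primrec.dom_finite (fun x : Fin n => (x : ℕ))).comp (Primrec.snd.comp hr)
  refine h.of_eq ?_
  intro us
  rw [wordAut_tables]
  congr 3
  ext1 q
  congr 1
  ext1 x
  rw [(run_spec D ℓ val nxt hn q x).1]

end

end Pool.Agent.TH114.Iso
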