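import Mathlib

set_option autoImplicit false

/-! Fibre products in the square of a free group; the number of their generators reads off the
word problem. (The permutation representation `rep` is a version with several letters `s_j` of the
one in `Pool.Agent.Helper270.Red`.) -/

namespace Pool.Agent.TH114.Iso

/-- The index set of the free generators. -/
abbrev J (m k : ℕ) : Type := Fin m ⊕ (Unit ⊕ Fin k)

/-- The free group. -/
abbrev F (m k : ℕ) : Type := FreeGroup (J m k)

variable {m k : ℕ}

/-- The inclusion of the small free group. -/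
def em : FreeGroup (Fin m) →* F m k := FreeGroup.map Sum.inl

/-- The first extra generator. -/
def ey : F m k := FreeGroup.of (Sum.inr (Sum.inl ()))

/-- The other extra generators. -/
def es (j : Fin k) : F m k := FreeGroup.of (Sum.inr (Sum.inr j))

/-- Commutator. -/
def comm {G : Type} [Group G] (a b : G) : G := a * b * a⁻¹ * b⁻¹

theorem map_comm' {G H : Type} [Group G] [Group H] (f : G →* H) (a b : G) :
    f (comm a b) = comm (f a) (f b) := by simp [comm]

/-- The double commutator. -/
def rho (j : Fin k) (w : FreeGroup (Fin m)) : F m k := comm (comm (em w) ey) (es j)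

section Perm

variable (k) (R : Set (FreeGroup (Fin m)))

/-- The group of the presentation. -/
abbrev U : Type := FreeGroup (Fin m) ⧸ Subgroup.normalClosure R

/-- The set acted upon. -/
abbrev Sta : Type := (U R → ℤ) × (Fin k → ℤ)

/-- Translations. -/
def tr : U R →* Equiv.Perm (Sta k R) where
  toFun u :=
    { toFun := fun p => (fun v => p.1 (u⁻¹ * v), p.2)
      invFun := fun p => (fun v => p.1 (u * v), p.2)
      left_inv := by intro p; simp
      right_inv := by intro p; simp }
  map_one' := by ext p <;> simp
  map_mul' a b := by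
    apply Equiv.ext
    intro p
    simp [mul_assoc]

open Classical in
/-- Adding the indicator function of the identity. -/
noncomputable def pY : Equiv.Perm (Sta k R) where
  toFun p := (fun v => p.1 v + (if v = 1 then 1 else 0), p.2)
  invFun p := (fun v => p.1 v - (if v = 1 then 1 else 0), p.2)
  left_inv := by intro p; simp
  right_inv := by intro p; simp

/-- Reading off the value at the identity. -/
def pS (j : Fin k) : Equiv.Perm (Sta k R) where
  toFun p := (p.1, p.2 + Pi.single j (p.1 1))
  invFun p := (p.1, p.2 - Pi.single j (p.1 1))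
  left_inv := by intro p; simp
  right_inv := by intro p; simp

/-- The shift. -/
def pC (c : Fin k → ℤ) : Equiv.Perm (Sta k R) where
  toFun p := (p.1, p.2 + c)
  invFun p := (p.1, p.2 - c)
  left_inv := by intro p; simp
  right_inv := by intro p; simp

theorem pC_add (a b : Fin k → ℤ) : pC k R (a + b) = pC k R a * pC k R b := by
  apply Equiv.ext
  intro p
  simp [pC, add_comm a b, add_assoc]

theorem pC_zero : pC k R 0 = 1 := by
  apply Equiv.ext
  intro p
  simp [pC]

/-- The permutation representation. -/
noncomputable def rep : F m k →* Equiv.Perm (Sta k R) :=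
  FreeGroup.lift (Sum.elim (fun i => tr k R (QuotientGroup.mk (FreeGroup.of i)))
    (Sum.elim (fun _ => pY k R) (fun j => pS k R j)))

theorem rep_em (w : FreeGroup (Fin m)) : rep k R (em w) = tr k R (QuotientGroup.mk w) := by
  have : (rep k R).comp em = (tr k R).comp (QuotientGroup.mk' _) := by
    apply FreeGroup.ext_hom
    intro i
    simp [rep, em]
  exact DFunLike.congr_fun this w

theorem rep_ey : rep k R ey = pY k R := by simp [rep, ey]
theorem rep_es (j : Fin k) : rep k R (es j) = pS k R j := by simp [rep, es]

theorem rep_comm (f : F m k) (c : Fin k → ℤ) : Commute (pC k R c) (rep k R f) := by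
  have : (rep k R).range ≤ Subgroup.centralizer {pC k R c} := by
    rw [rep, FreeGroup.range_lift_eq_closure, Subgroup.closure_le]
    rintro _ ⟨i, rfl⟩
    rw [SetLike.mem_coe, Subgroup.mem_centralizer_singleton_iff]
    rcases i with i | u | j
    · apply Equiv.ext
      intro p
      simp [tr, pC]
    · apply Equiv.ext
      intro p
      simp [pY, pC]
    · apply Equiv.ext
      intro p
      simp [pS, pC, add_right_comm]
  have h1 := this ⟨f, rfl⟩
  rw [Subgroup.mem_centralizer_singleton_iff] at h1
  exact h1.symm

open Classical in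
theorem rep_inner (u : U R) (p : Sta k R) : comm (tr k R u) (pY k R) p =
    (fun v => p.1 v - (if v = 1 then 1 else 0) + (if v = u then 1 else 0), p.2) := by
  have h1 : ∀ p, (tr k R u) p = (fun v => p.1 (u⁻¹ * v), p.2) := fun p => rfl
  have h2 : ∀ p, (tr k R u)⁻¹ p = (fun v => p.1 (u * v), p.2) := fun p => rfl
  have h3 : ∀ p, pY k R p = (fun v => p.1 v + (if v = 1 then 1 else 0), p.2) := fun p => rfl
  have h4 : ∀ p, (pY k R)⁻¹ p = (fun v => p.1 v - (if v = 1 then 1 else 0), p.2) := fun p => rfl
  simp only [comm, Equiv.Perm.mul_apply, h1, h2, h3, h4, mul_inv_cancel_left,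
    inv_mul_eq_one]
  simp only [eq_comm]

open Classical in
theorem rep_inner_inv (u : U R) (p : Sta k R) : (comm (tr k R u) (pY k R))⁻¹ p =
    (fun v => p.1 v + (if v = 1 then 1 else 0) - (if v = u then 1 else 0), p.2) := by
  rw [Equiv.Perm.inv_eq_iff_eq, rep_inner]
  ext v
  · simp only; ring
  · rfl

theorem rep_rho (j : Fin k) {w : FreeGroup (Fin m)} (hw : w ∉ Subgroup.normalClosure R) :
    rep k R (rho j w) = pC k R (Pi.single j 1) := by
  classical
  rw [rho, map_comm', map_comm', rep_em, rep_ey, rep_es]
  set u : U R := QuotientGroup.mk w with hu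
  have hu1 : (1 : U R) ≠ u := fun h => hw ((QuotientGroup.eq_one_iff w).mp h.symm)
  have h3 : ∀ p, pS k R j p = (p.1, p.2 + Pi.single j (p.1 1)) := fun p => rfl
  have h4 : ∀ p, (pS k R j)⁻¹ p = (p.1, p.2 - Pi.single j (p.1 1)) := fun p => rfl
  apply Equiv.ext
  intro p
  change comm (comm (tr k R u) (pY k R)) (pS k R j) p = (p.1, p.2 + Pi.single j 1)
  rw [comm, Equiv.Perm.mul_apply, Equiv.Perm.mul_apply, Equiv.Perm.mul_apply, h4, rep_inner_inv,
    h3, rep_inner]
  simp only [if_true, if_neg hu1]
  apply Prod.ext
  · funext v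
    simp only; ring
  · simp only
    rw [sub_zero, sub_add, ← Pi.single_sub, sub_eq_add_neg, ← Pi.single_neg]
    congr 2
    ring

theorem rep_rel {r : FreeGroup (Fin m)} (hr : r ∈ R) : rep k R (em r) = 1 := by
  rw [rep_em, (QuotientGroup.eq_one_iff r).mpr (Subgroup.subset_normalClosure hr), map_one]

end Perm

section Theta

variable (k) (R : Set (FreeGroup (Fin m))) (w : FreeGroup (Fin m))

/-- The generators of the fibre product of the presentation. -/
def gens0 : Set (F m k × F m k) :=
  Set.range (fun i : J m k => (FreeGroup.of i, FreeGroup.of i)) ∪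
    (fun r => ((1 : F m k), em r)) '' R

/-- The generators of the enlarged fibre product. -/
def gens : Set (F m k × F m k) := gens0 k R ∪ Set.range (fun j : Fin k => ((1 : F m k), rho j w))

variable {k R w}

theorem closure_gens_eq (hw : w ∈ Subgroup.normalClosure R) :
    Subgroup.closure (gens k R w) = Subgroup.closure (gens0 k R) := by
  apply le_antisymm
  · rw [Subgroup.closure_le, gens, Set.union_subset_iff]
    refine ⟨Subgroup.subset_closure, ?_⟩
    rintro _ ⟨j, rfl⟩
    set H := Subgroup.closure (gens0 k R) with hH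
    have hdiag : ∀ f : F m k, (f, f) ∈ H := by
      intro f
      have : ((MonoidHom.id (F m k)).prod (MonoidHom.id _)).range ≤ H := by
        rw [MonoidHom.range_eq_map, ← FreeGroup.closure_range_of, MonoidHom.map_closure,
          Subgroup.closure_le]
        rintro _ ⟨_, ⟨i, rfl⟩, rfl⟩
        exact Subgroup.subset_closure (Or.inl ⟨i, rfl⟩)
      exact this ⟨f, rfl⟩
    let K : Subgroup (F m k) := H.comap (MonoidHom.inr (F m k) (F m k))
    have hK : K.Normal := by
      refine ⟨fun n hn g => ?_⟩
      have h1 : ((1 : F m k), n) ∈ H := hn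
      have h2 := H.mul_mem (H.mul_mem (hdiag g) h1) (H.inv_mem (hdiag g))
      change ((1 : F m k), g * n * g⁻¹) ∈ H
      have h3 : ((1 : F m k), g * n * g⁻¹) = (g, g) * (1, n) * (g, g)⁻¹ := by
        ext <;> simp
      rw [h3]; exact h2
    have h1 : Subgroup.normalClosure R ≤ K.comap em := by
      have : (K.comap em).Normal := hK.comap em
      apply Subgroup.normalClosure_le_normal
      intro r hr
      exact Subgroup.subset_closure (Or.inr ⟨r, hr, rfl⟩)
    have h2 : em w ∈ K := h1 hw
    have hcm : ∀ a ∈ K, ∀ b, comm a b ∈ K := by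
      intro a ha b
      have : comm a b = a * (b * a⁻¹ * b⁻¹) := by simp [comm, mul_assoc]
      rw [this]
      exact K.mul_mem ha (hK.conj_mem _ (K.inv_mem ha) b)
    exact hcm _ (hcm _ h2 _) _
  · apply Subgroup.closure_mono
    exact Set.subset_union_left

theorem exists_theta (hw : w ∉ Subgroup.normalClosure R) {l : F m k × F m k}
    (hl : l ∈ Subgroup.closure (gens k R w)) :
    ∃ c : Fin k → ℤ, rep k R l.2 = rep k R l.1 * pC k R c := by
  induction hl using Subgroup.closure_induction with
  | mem l hl =>
    rcases hl with (⟨i, rfl⟩ | ⟨r, hr, rfl⟩) | ⟨j, rfl⟩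
    · exact ⟨0, by simp [pC_zero]⟩
    · exact ⟨0, by simp [pC_zero, rep_rel k R hr]⟩
    · exact ⟨Pi.single j 1, by simp [rep_rho k R j hw]⟩
  | one => exact ⟨0, by simp [pC_zero]⟩
  | mul a b _ _ ha hb =>
    obtain ⟨n, hn⟩ := ha
    obtain ⟨k', hk⟩ := hb
    refine ⟨n + k', ?_⟩
    rw [Prod.snd_mul, Prod.fst_mul, map_mul, map_mul, hn, hk, pC_add, mul_assoc, mul_assoc]
    congr 1
    rw [← mul_assoc, (rep_comm k R b.1 n).eq, mul_assoc]
  | inv a _ ha =>
    obtain ⟨n, hn⟩ := ha
    refine ⟨-n, ?_⟩
    have h1 : pC k R (-n) = (pC k R n)⁻¹ := by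
      rw [eq_inv_iff_mul_eq_one, ← pC_add, neg_add_cancel, pC_zero]
    rw [Prod.snd_inv, Prod.fst_inv, map_inv, map_inv, hn, mul_inv_rev, h1,
      ((rep_comm k R a.1 n).inv_inv).eq]

theorem pC_inj {a b : Fin k → ℤ} (h : pC k R a = pC k R b) : a = b := by
  have h1 := congrArg (fun f => (f ((fun _ => 0), 0)).2) h
  simpa [pC] using h1

/-- The exponent. -/
noncomputable def th (hw : w ∉ Subgroup.normalClosure R)
    (l : Subgroup.closure (gens k R w)) : Fin k → ℤ :=
  (exists_theta hw l.2).choose

theorem th_spec (hw : w ∉ Subgroup.normalClosure R) (l : Subgroup.closure (gens k R w)) :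
    rep k R l.1.2 = rep k R l.1.1 * pC k R (th hw l) := (exists_theta hw l.2).choose_spec

/-- The homomorphism to the free abelian group. -/
noncomputable def theta (hw : w ∉ Subgroup.normalClosure R) :
    Subgroup.closure (gens k R w) →* Multiplicative (Fin k → ℤ) :=
  MonoidHom.mk' (fun l => Multiplicative.ofAdd (th hw l)) (by
    intro a b
    apply Multiplicative.toAdd.injective
    rw [toAdd_mul, toAdd_ofAdd, toAdd_ofAdd, toAdd_ofAdd]
    apply pC_inj (R := R)
    have h1 := th_spec hw (a * b)
    have h2 := th_spec hw a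
    have h3 := th_spec hw b
    rw [Subgroup.coe_mul, Prod.snd_mul, Prod.fst_mul, map_mul, map_mul, h2, h3, mul_assoc,
      mul_assoc, mul_right_inj, ← mul_assoc, (rep_comm k R _ _).eq, mul_assoc, mul_right_inj,
      ← pC_add] at h1
    exact h1.symm)

theorem theta_spec (hw : w ∉ Subgroup.normalClosure R) (l : Subgroup.closure (gens k R w))
    (c : Fin k → ℤ) (h : rep k R l.1.2 = rep k R l.1.1 * pC k R c) :
    theta hw l = Multiplicative.ofAdd c := by
  have h2 := th_spec hw l
  rw [h2, mul_right_inj] at h
  exact congrArg Multiplicative.ofAdd (pC_inj h)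

/-- The elementary abelian target. -/
abbrev V (m k : ℕ) : Type := (J m k → ZMod 2) × (Fin k → ZMod 2)

/-- The reduction modulo two of the exponents in the free group. -/
def abl : F m k →* Multiplicative (J m k → ZMod 2) :=
  FreeGroup.lift fun i => Multiplicative.ofAdd (Pi.single i 1)

/-- reduction modulo two -/
def red : Multiplicative (Fin k → ℤ) →* Multiplicative (Fin k → ZMod 2) :=
  AddMonoidHom.toMultiplicative
    { toFun := fun c i => (c i : ZMod 2)
      map_zero' := by ext i; simp
      map_add' := fun a b => by ext i; simp }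

/-- The homomorphism onto the elementary abelian group. -/
noncomputable def big (hw : w ∉ Subgroup.normalClosure R) :
    Subgroup.closure (gens k R w) →* Multiplicative (V m k) where
  toFun l := Multiplicative.ofAdd (Multiplicative.toAdd (abl l.1.1),
    Multiplicative.toAdd (red (theta hw l)))
  map_one' := by
    rw [map_one, map_one, Subgroup.coe_one, Prod.fst_one, map_one]
    rfl
  map_mul' a b := by
    rw [map_mul, map_mul, Subgroup.coe_mul, Prod.fst_mul, map_mul]
    rfl

theorem big_surjective (hw : w ∉ Subgroup.normalClosure R) :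
    Function.Surjective (big (k := k) hw) := by
  classical
  have h1 : ∀ i : J m k, ∃ l, big (k := k) hw l = Multiplicative.ofAdd (Pi.single i 1, 0) := by
    intro i
    refine ⟨⟨(FreeGroup.of i, FreeGroup.of i), Subgroup.subset_closure
      (Or.inl (Or.inl ⟨i, rfl⟩))⟩, ?_⟩
    have h2 : theta (k := k) hw ⟨(FreeGroup.of i, FreeGroup.of i), Subgroup.subset_closure
      (Or.inl (Or.inl ⟨i, rfl⟩))⟩ = Multiplicative.ofAdd 0 :=
      theta_spec hw _ 0 (by simp [pC_zero])
    change Multiplicative.ofAdd (_, Multiplicative.toAdd (red (theta (k := k) hw _))) = _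
    rw [h2, ofAdd_zero, map_one]
    simp [abl]
  have h2 : ∀ j : Fin k, ∃ l, big (k := k) hw l = Multiplicative.ofAdd (0, Pi.single j 1) := by
    intro j
    refine ⟨⟨((1 : F m k), rho j w), Subgroup.subset_closure (Or.inr ⟨j, rfl⟩)⟩, ?_⟩
    have h2 : theta (k := k) hw ⟨((1 : F m k), rho j w), Subgroup.subset_closure
      (Or.inr ⟨j, rfl⟩)⟩ = Multiplicative.ofAdd (Pi.single j 1) :=
      theta_spec hw _ _ (by simp [rep_rho k R j hw])
    change Multiplicative.ofAdd (_, Multiplicative.toAdd (red (theta (k := k) hw _))) = _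
    rw [h2]
    congr 1
    refine Prod.ext ?_ ?_
    · simp
    · funext i
      simp only [red, AddMonoidHom.toMultiplicative_apply_apply, AddMonoidHom.coe_mk,
        ZeroHom.coe_mk, toAdd_ofAdd]
      rcases eq_or_ne i j with rfl | h
      · simp
      · simp [h]
  intro v
  let v' : V m k := Multiplicative.toAdd v
  have hv : v' = ∑ i : J m k, (v'.1 i).val • ((Pi.single i 1, 0) : V m k) +
      ∑ j : Fin k, (v'.2 j).val • ((0, Pi.single j 1) : V m k) := by
    refine Prod.ext ?_ ?_
    · rw [Prod.fst_add, Prod.fst_sum, Prod.fst_sum]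
      simp only [Prod.smul_fst, smul_zero, Finset.sum_const_zero, add_zero]
      funext i
      rw [Finset.sum_apply]
      simp [Pi.single_apply]
    · rw [Prod.snd_add, Prod.snd_sum, Prod.snd_sum]
      simp only [Prod.smul_snd, smul_zero, Finset.sum_const_zero, zero_add]
      funext i
      rw [Finset.sum_apply]
      simp [Pi.single_apply]
  have hv' : v = (∏ i : J m k, (Multiplicative.ofAdd ((Pi.single i 1, 0) : V m k)) ^ (v'.1 i).val) *
      ∏ j : Fin k, (Multiplicative.ofAdd ((0, Pi.single j 1) : V m k)) ^ (v'.2 j).val := by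
    apply Multiplicative.toAdd.injective
    rw [toAdd_mul, toAdd_prod, toAdd_prod]
    exact hv
  rw [hv']
  change _ ∈ (big (k := k) hw).range
  refine mul_mem (prod_mem fun i _ => pow_mem ?_ _) (prod_mem fun j _ => pow_mem ?_ _)
  · exact h1 i
  · exact h2 j

theorem finrank_V : Module.finrank (ZMod 2) (V m k) = (m + (1 + k)) + k := by
  rw [Module.finrank_prod, Module.finrank_fintype_fun_eq_card, Module.finrank_fintype_fun_eq_card]
  simp

/-- A group with a surjection to an elementary abelian group needs many generators. -/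
theorem card_gens_ge {G W : Type} [Group G] [AddCommGroup W] [Module (ZMod 2) W]
    (S : Finset G) (hS : Subgroup.closure (S : Set G) = ⊤) (f : G →* Multiplicative W)
    (hf : Function.Surjective f) : Module.finrank (ZMod 2) W ≤ S.card := by
  classical
  let T : Finset W := S.image fun g => Multiplicative.toAdd (f g)
  have hT : Submodule.span (ZMod 2) (T : Set W) = ⊤ := by
    rw [eq_top_iff]
    intro v _
    obtain ⟨g, hg⟩ := hf (Multiplicative.ofAdd v)
    have h1 : Multiplicative.toAdd (f g) = v := by rw [hg]; rfl
    rw [← h1]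
    have hg' : g ∈ Subgroup.closure (S : Set G) := by rw [hS]; trivial
    clear hg h1
    induction hg' using Subgroup.closure_induction with
    | mem g hg =>
      apply Submodule.subset_span
      rw [Finset.coe_image]
      exact ⟨g, hg, rfl⟩
    | one => rw [map_one, toAdd_one]; exact Submodule.zero_mem _
    | mul a b _ _ ha hb => rw [map_mul, toAdd_mul]; exact Submodule.add_mem _ ha hb
    | inv a _ ha => rw [map_inv, toAdd_inv]; exact Submodule.neg_mem _ ha
  have h2 := finrank_span_finset_le_card (R := ZMod 2) T
  rw [Set.finrank, hT, finrank_top] at h2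
  exact h2.trans Finset.card_image_le

end Theta

end Pool.Agent.TH114.Iso
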