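import Mathlib
import Pool.Agent.TH114.Iso.Comp
import Pool.Agent.TH114.Iso.Fib
import Pool.Agent.Helper270.WPB
import Pool.Agent.Helper599.PingPong

set_option autoImplicit false

/-! The isomorphism problem for groups generated by finite automata is undecidable. -/

namespace Pool.Agent.TH114.Iso

/-- Formal inverse. -/
def winv {α : Type} (w : List (α × Bool)) : List (α × Bool) :=
  (w.map fun x => (x.1, !x.2)).reverse

theorem mk_winv {α : Type} (w : List (α × Bool)) :
    FreeGroup.mk (winv w) = (FreeGroup.mk w)⁻¹ := by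
  rw [FreeGroup.inv_mk]; rfl

/-- Formal commutator with a letter. -/
def cw {α : Type} (w : List (α × Bool)) (a : α) : List (α × Bool) :=
  w ++ ((a, true) :: (winv w ++ [(a, false)]))

theorem mk_cw {α : Type} (w : List (α × Bool)) (a : α) :
    FreeGroup.mk (cw w a) = comm (FreeGroup.mk w) (FreeGroup.of a) := by
  have h1 : (FreeGroup.mk [(a, false)] : FreeGroup α) = (FreeGroup.of a)⁻¹ := rfl
  have h2 : (FreeGroup.mk ((a, true) :: (winv w ++ [(a, false)])) : FreeGroup α) =
      FreeGroup.of a * (FreeGroup.mk (winv w) * FreeGroup.mk [(a, false)]) := by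
    rw [FreeGroup.mul_mk]
    change _ = FreeGroup.mk [(a, true)] * _
    rw [FreeGroup.mul_mk]
    rfl
  rw [cw, ← FreeGroup.mul_mk, h2, mk_winv, h1, comm]
  simp only [mul_assoc]

variable {m k : ℕ}

/-- The word representing the double commutator. -/
def rhoW (w : List (Fin m × Bool)) (j : Fin k) : List (J m k × Bool) :=
  cw (cw (w.map fun x => (Sum.inl x.1, x.2)) (Sum.inr (Sum.inl ()))) (Sum.inr (Sum.inr j))

theorem mk_rhoW (w : List (Fin m × Bool)) (j : Fin k) :
    FreeGroup.mk (rhoW w j) = rho j (FreeGroup.mk w) := by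
  rw [rhoW, mk_cw, mk_cw, rho, ey, es]
  have h1 : em (FreeGroup.mk w) =
      (FreeGroup.mk (w.map fun x => (Sum.inl x.1, x.2)) : F m k) := by
    rw [em, FreeGroup.map.mk]
  rw [h1]

theorem winv_primrec {α : Type} [Primcodable α] : Primrec (winv : List (α × Bool) → _) := by
  apply Primrec.list_reverse.comp
  apply Primrec.list_map Primrec.id
  exact (Primrec.pair (Primrec.fst.comp Primrec.snd)
    (Primrec.not.comp (Primrec.snd.comp Primrec.snd))).to₂

theorem cw_primrec {α β : Type} [Primcodable α] [Primcodable β]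
    {f : β → List (α × Bool)} {g : β → α} (hf : Primrec f) (hg : Primrec g) :
    Primrec (fun x => cw (f x) (g x)) := by
  apply Primrec.list_append.comp hf
  apply Primrec.list_cons.comp (Primrec.pair hg (Primrec.const _))
  exact Primrec.list_append.comp (winv_primrec.comp hf)
    (Primrec.list_cons.comp (Primrec.pair hg (Primrec.const _)) (Primrec.const _))

theorem rhoW_primrec : Primrec₂ (rhoW : List (Fin m × Bool) → Fin k → _) := by
  apply cw_primrec
  · apply cw_primrec
    · apply Primrec.list_map Primrec.fst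
      exact (Primrec.pair (Primrec.sumInl.comp (Primrec.fst.comp Primrec.snd))
        (Primrec.snd.comp Primrec.snd)).to₂
    · exact Primrec.const _
  · exact Primrec.sumInr.comp (Primrec.sumInr.comp Primrec.snd)

/-- The letters: `((b, i), s)` stands for `(x_i, x_i)` or `(1, x_i)` or their inverses. -/
abbrev Lt (m k : ℕ) : Type := (Bool × J m k) × Bool

/-- The element of the square of the free group. -/
def lval (l : Lt m k) : F m k × F m k :=
  let g : F m k × F m k := if l.1.1 then (1, FreeGroup.of l.1.2) else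
    (FreeGroup.of l.1.2, FreeGroup.of l.1.2)
  if l.2 then g else g⁻¹

/-- A word in the second factor. -/
def sw (w : List (J m k × Bool)) : List (Lt m k) := w.map fun p => ((true, p.1), p.2)

theorem lval_sw (w : List (J m k × Bool)) : ((sw w).map lval).prod = (1, FreeGroup.mk w) := by
  induction w with
  | nil => rfl
  | cons p w ih =>
    have h1 : ((sw (p :: w)).map lval).prod = lval ((true, p.1), p.2) * ((sw w).map lval).prod := by
      simp [sw]
    have h2 : (FreeGroup.mk (p :: w) : F m k) = FreeGroup.mk [p] * FreeGroup.mk w := by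
      rw [FreeGroup.mul_mk]; rfl
    rw [h1, ih, h2]
    obtain ⟨i, b⟩ := p
    cases b
    · ext
      · simp [lval]
      · simp only [lval, if_true, Bool.false_eq_true, if_false, Prod.snd_mul, Prod.snd_inv]
        rfl
    · ext
      · simp [lval]
      · simp only [lval, if_true, Prod.snd_mul]
        rfl

/-- The representation of the free group. -/
noncomputable def phi : F m k →* ((ℤ × ℤ) ≃ₗ[ℤ] (ℤ × ℤ)) :=
  FreeGroup.lift fun i => Pool.Agent.Helper599.PP.Au
    (Pool.Agent.Helper599.PP.cst (Encodable.encode i))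

theorem phi_injective (hk : 0 < k) : Function.Injective (phi (m := m) (k := k)) := by
  have : Nontrivial (J m k) := ⟨⟨Sum.inr (Sum.inl ()), Sum.inr (Sum.inr ⟨0, hk⟩), by simp⟩⟩
  exact Pool.Agent.Helper599.PP.injective (fun i : J m k => Encodable.encode i)
    Encodable.encode_injective

/-- The representation of the square. -/
noncomputable def mu : F m k × F m k →* (L4 ≃ₗ[ℤ] L4) where
  toFun p := LinearEquiv.prodCongr (phi p.1) (phi p.2)
  map_one' := by
    rw [Prod.fst_one, Prod.snd_one, map_one]
    ext x <;> rfl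
  map_mul' p q := by
    rw [Prod.fst_mul, Prod.snd_mul, map_mul, map_mul]
    ext x <;> rfl

theorem mu_injective (hk : 0 < k) : Function.Injective (mu (m := m) (k := k)) := by
  intro p q h
  have h1 : ∀ v : L4, (phi p.1 v.1, phi p.2 v.2) = (phi q.1 v.1, phi q.2 v.2) :=
    fun v => congrArg (fun f : L4 ≃ₗ[ℤ] L4 => f v) h
  apply Prod.ext
  · apply phi_injective hk
    ext1 v
    exact congrArg Prod.fst (h1 (v, 0))
  · apply phi_injective hk
    ext1 v
    exact congrArg Prod.snd (h1 (0, v))

/-- The linear map of a letter. -/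
noncomputable def ell (l : Lt m k) : L4 ≃ₗ[ℤ] L4 := mu (lval l)

theorem lv_ell (u : List (Lt m k)) : lv ell u = mu (u.map lval).prod := by
  rw [lv, map_list_prod, List.map_map]
  rfl

/-- The words common to all the automata. -/
noncomputable def us0 (m k : ℕ) (R : Finset (FreeGroup (Fin m))) : List (List (Lt m k)) :=
  ((Finset.univ : Finset (J m k)).toList.map fun i => [((false, i), true)]) ++
    (R.toList.map fun r => sw (em r).toWord)

/-- The words of the automaton of a word. -/
noncomputable def us (m k : ℕ) (R : Finset (FreeGroup (Fin m))) (w : List (Fin m × Bool)) :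
    List (List (Lt m k)) :=
  us0 m k R ++ (List.finRange k).map fun j => sw (rhoW w j)

theorem us_primrec (R : Finset (FreeGroup (Fin m))) : Primrec (us m k R) := by
  apply Primrec.list_append.comp (Primrec.const _)
  apply Primrec.list_map (Primrec.const _)
  apply Primrec.list_map
  · exact rhoW_primrec
  · exact (Primrec.pair (Primrec.pair (Primrec.const _) (Primrec.fst.comp Primrec.snd))
      (Primrec.snd.comp Primrec.snd)).to₂

theorem closure_us0 (R : Finset (FreeGroup (Fin m))) :
    Subgroup.closure {M | ∃ u ∈ us0 m k R, lv ell u = M} =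
      (Subgroup.closure (gens0 k (R : Set (FreeGroup (Fin m))))).map mu := by
  rw [MonoidHom.map_closure]
  congr 1
  ext M
  simp only [us0, Set.mem_ofPred_eq, List.mem_append, List.mem_map, Finset.mem_toList,
    Finset.mem_univ, true_and, gens0, Set.mem_image, Set.mem_union, Set.mem_range,
    Finset.mem_coe]
  constructor
  · rintro ⟨_, ⟨i, rfl⟩ | ⟨r, hr, rfl⟩, rfl⟩
    · refine ⟨_, Or.inl ⟨i, rfl⟩, ?_⟩
      rw [lv_ell]
      simp [lval]
    · refine ⟨_, Or.inr ⟨r, hr, rfl⟩, ?_⟩
      rw [lv_ell, lval_sw, FreeGroup.mk_toWord]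
  · rintro ⟨_, ⟨i, rfl⟩ | ⟨r, hr, rfl⟩, rfl⟩
    · refine ⟨_, Or.inl ⟨i, rfl⟩, ?_⟩
      rw [lv_ell]
      simp [lval]
    · refine ⟨_, Or.inr ⟨r, hr, rfl⟩, ?_⟩
      rw [lv_ell, lval_sw, FreeGroup.mk_toWord]

theorem closure_us (R : Finset (FreeGroup (Fin m))) (w : List (Fin m × Bool)) :
    Subgroup.closure {M | ∃ u ∈ us m k R w, lv ell u = M} =
      (Subgroup.closure (gens k (R : Set (FreeGroup (Fin m))) (FreeGroup.mk w))).map mu := by
  have h1 : {M | ∃ u ∈ us m k R w, lv ell u = M} = {M | ∃ u ∈ us0 m k R, lv ell u = M} ∪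
      Set.range (fun j : Fin k => mu ((1 : F m k), rho j (FreeGroup.mk w))) := by
    ext M
    simp only [us, Set.mem_ofPred_eq, List.mem_append, Set.mem_union, Set.mem_range, List.mem_map,
      List.mem_finRange, true_and]
    constructor
    · rintro ⟨_, h | ⟨j, rfl⟩, rfl⟩
      · exact Or.inl ⟨_, h, rfl⟩
      · refine Or.inr ⟨j, ?_⟩
        rw [lv_ell, lval_sw, mk_rhoW]
    · rintro (⟨u, h, rfl⟩ | ⟨j, rfl⟩)
      · exact ⟨u, Or.inl h, rfl⟩
      · refine ⟨_, Or.inr ⟨j, rfl⟩, ?_⟩
        rw [lv_ell, lval_sw, mk_rhoW]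
  rw [h1, Subgroup.closure_union, closure_us0, gens, Subgroup.closure_union, Subgroup.map_sup]
  congr 1
  rw [MonoidHom.map_closure]
  congr 1
  rw [← Set.range_comp]
  rfl

/-- A finite generating set of the lattice. -/
def E4 : Finset L4 := {0, ((1, 0), (0, 0)), ((0, 1), (0, 0)), ((0, 0), (1, 0)), ((0, 0), (0, 1))}

theorem E4_closure : AddSubgroup.closure (E4 : Set L4) = ⊤ := by
  rw [eq_top_iff]
  rintro ⟨⟨a, b⟩, ⟨c, d⟩⟩ _
  have h : (((a, b), (c, d)) : L4) = a • ((1, 0), (0, 0)) + b • ((0, 1), (0, 0)) +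
      c • ((0, 0), (1, 0)) + d • ((0, 0), (0, 1)) := by
    simp
  rw [h]
  have hm : ∀ z ∈ E4, z ∈ AddSubgroup.closure (E4 : Set L4) := fun z hz =>
    AddSubgroup.subset_closure hz
  refine add_mem (add_mem (add_mem ?_ ?_) ?_) ?_ <;>
    exact AddSubgroup.zsmul_mem _ (hm _ (by simp [E4])) _

/-- A small generating set. -/
theorem exists_gens {L : Type} (ℓ : L → L4 ≃ₗ[ℤ] L4) (vs : List (List L)) :
    ∃ S : Finset (Aff L4), S.card ≤ 5 + vs.length ∧ Subgroup.closure (S : Set (Aff L4)) =
      (Subgroup.closure {M | ∃ u ∈ vs, lv ℓ u = M}).comap (lin (Λ := L4)) := by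
  classical
  refine ⟨E4.image (fun z => mkA z 1) ∪ vs.toFinset.image (fun u => mkA 0 (lv ℓ u)), ?_, ?_⟩
  · refine (Finset.card_union_le _ _).trans (add_le_add ?_ ?_)
    · exact Finset.card_image_le.trans (by simp [E4]; exact Finset.card_le_five)
    · exact Finset.card_image_le.trans (List.toFinset_card_le _)
  · apply le_antisymm
    · rw [Subgroup.closure_le]
      intro f hf
      rw [SetLike.mem_coe, Subgroup.mem_comap, lin_apply]
      rw [Finset.coe_union, Finset.coe_image, Finset.coe_image] at hf
      rcases hf with ⟨z, _, rfl⟩ | ⟨u, hu, rfl⟩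
      · rw [mkA_linear]
        exact Subgroup.one_mem _
      · rw [mkA_linear]
        refine Subgroup.subset_closure ⟨u, ?_, rfl⟩
        simpa using hu
    · apply comap_le_of ℓ vs E4 E4_closure
      · intro z hz
        apply Subgroup.subset_closure
        rw [Finset.coe_union, Finset.coe_image]
        exact Or.inl ⟨z, hz, rfl⟩
      · intro u hu
        apply Subgroup.subset_closure
        rw [Finset.coe_union, Finset.coe_image, Finset.coe_image]
        exact Or.inr ⟨u, by simpa using hu, rfl⟩

end Pool.Agent.TH114.Iso
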