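import Mathlib
import Pool.Agent.TH114.Iso.Final

set_option autoImplicit false

/-! The isomorphism problem for groups generated by finite automata is undecidable. -/

namespace Pool.Agent.TH114.Iso

theorem card_gens_ge' {G W : Type} [Group G] [AddCommGroup W] [Module (ZMod 2) W]
    (S : Finset G) (H : Subgroup G) (hS : Subgroup.closure (S : Set G) = H)
    (f : H →* Multiplicative W) (hf : Function.Surjective f) :
    Module.finrank (ZMod 2) W ≤ S.card := by
  classical
  subst hS
  let S' : Finset (Subgroup.closure (S : Set G)) :=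
    S.subtype (fun x => x ∈ Subgroup.closure (S : Set G))
  have h1 : Subgroup.closure (S' : Set (Subgroup.closure (S : Set G))) = ⊤ := by
    have := Subgroup.closure_closure_coe_preimage (k := (S : Set G))
    rw [← this]
    congr 1
    ext x
    simp [S']
  refine (card_gens_ge S' h1 f hf).trans ?_
  rw [Finset.card_subtype]
  exact Finset.card_filter_le _ _

theorem length_us0 {m k : ℕ} (R : Finset (FreeGroup (Fin m))) :
    (us0 m k R).length = (m + (1 + k)) + R.card := by
  simp [us0]

/-- The groups of the reduction. -/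
theorem iso_iff {m : ℕ} (R : Finset (FreeGroup (Fin m))) (w : List (Fin m × Bool)) {k : ℕ}
    (hk : k = R.card + 6) {N : ℕ} (val : Fin N → L4) (nxt : Lt m k → Fin N → Fin 16 → Fin N)
    (hv : ∀ z ∈ E4, ∃ v, val v = z)
    (hn : ∀ l v x, val (nxt l v x) = d4.quo (ell l (d4.ι x) + val v)) :
    Nonempty ((wordAut d4 ell val nxt (us m k R w)).group ≃*
      (wordAut d4 ell val nxt (us0 m k R)).group) ↔
      FreeGroup.mk w ∈ Subgroup.normalClosure (R : Set (FreeGroup (Fin m))) := by
  have hne0 : ∃ u ∈ us0 m k R, u ≠ [] := by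
    refine ⟨[((false, Sum.inr (Sum.inl ())), true)], ?_, by simp⟩
    simp [us0]
  have hne : ∃ u ∈ us m k R w, u ≠ [] := by
    obtain ⟨u, h1, h2⟩ := hne0
    exact ⟨u, List.mem_append_left _ h1, h2⟩
  have hE0 : (0 : L4) ∈ E4 := by simp [E4]
  have gA := wordAut_group d4 ell val nxt hn (us m k R w)
  have gB := wordAut_group d4 ell val nxt hn (us0 m k R)
  rw [closure_states ell val _ E4 hE0 E4_closure hv hne] at gA
  rw [closure_states ell val _ E4 hE0 E4_closure hv hne0] at gB
  constructor
  · rintro ⟨e⟩
    by_contra hw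
    obtain ⟨S, hS1, hS2⟩ := exists_gens ell (us0 m k R)
    set G0 := (Subgroup.closure {M | ∃ u ∈ us0 m k R, lv ell u = M}).comap (lin (Λ := L4))
      with hG0
    set G1 := (Subgroup.closure {M | ∃ u ∈ us m k R w, lv ell u = M}).comap (lin (Λ := L4))
      with hG1
    let e0 : G0 ≃* (wordAut d4 ell val nxt (us0 m k R)).group :=
      (G0.equivMapOfInjective _ (wperm_injective d4)).trans (MulEquiv.subgroupCongr gB.symm)
    let e1 : G1 ≃* (wordAut d4 ell val nxt (us m k R w)).group :=
      (G1.equivMapOfInjective _ (wperm_injective d4)).trans (MulEquiv.subgroupCongr gA.symm)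
    let T := Subgroup.closure (gens k (R : Set (FreeGroup (Fin m))) (FreeGroup.mk w))
    let e2 : T ≃* Subgroup.closure {M | ∃ u ∈ us m k R w, lv ell u = M} :=
      (T.equivMapOfInjective _ (mu_injective (by omega))).trans
        (MulEquiv.subgroupCongr (closure_us R w).symm)
    let p : G1 →* Subgroup.closure {M | ∃ u ∈ us m k R w, lv ell u = M} :=
      (lin (Λ := L4)).subgroupComap _
    have hp : Function.Surjective p := by
      rintro ⟨M, hM⟩
      refine ⟨⟨mkA 0 M, ?_⟩, ?_⟩
      · rw [hG1, Subgroup.mem_comap, lin_apply, mkA_linear]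
        exact hM
      · apply Subtype.ext
        exact mkA_linear 0 M
    let f : G0 →* Multiplicative (V m k) :=
      (big hw).comp (e2.symm.toMonoidHom.comp (p.comp
        (e1.symm.toMonoidHom.comp (e.symm.toMonoidHom.comp e0.toMonoidHom))))
    have hf : Function.Surjective f :=
      (big_surjective hw).comp (e2.symm.surjective.comp (hp.comp
        (e1.symm.surjective.comp (e.symm.surjective.comp e0.surjective))))
    have h1 := card_gens_ge' S G0 hS2 f hf
    rw [finrank_V] at h1
    rw [length_us0] at hS1
    omega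
  · intro hw
    have h1 : Subgroup.closure {M | ∃ u ∈ us m k R w, lv ell u = M} =
        Subgroup.closure {M | ∃ u ∈ us0 m k R, lv ell u = M} := by
      rw [closure_us, closure_us0, closure_gens_eq hw]
    rw [h1, ← gB] at gA
    exact ⟨MulEquiv.subgroupCongr gA⟩

/-- There is a fixed automaton `B` over an alphabet with 16 letters such that no algorithm decides
whether a given automaton over the same alphabet generates a group isomorphic to the one of
`B`. -/
theorem main : ∃ (m₀ : ℕ) (B : Automaton m₀ 16),
    ¬ ∃ f : ℕ × ℕ × List (List (ℕ × ℕ)) → Bool, Computable f ∧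
      ∀ (m : ℕ) (A : Automaton m 16), f A.tables = true ↔ Nonempty (A.group ≃* B.group) := by
  obtain ⟨m, R, W, hW, hu⟩ := Pool.Agent.Helper270.WP.word_problem
  obtain ⟨N, val, nxt, hv, hn⟩ := exists_box d4 s4 (ell (m := m) (k := R.card + 6)) E4
  refine ⟨_, wordAut d4 ell val nxt (us0 m (R.card + 6) R), ?_⟩
  rintro ⟨f, hf, hdec⟩
  apply hu
  have h1 : Computable (fun n => f (wordAut d4 ell val nxt (us m (R.card + 6) R (W n))).tables) :=
    hf.comp (((tables_primrec d4 ell val nxt hn).comp (us_primrec R)).to_comp.comp hW)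
  refine ComputablePred.computable_iff.2 ⟨_, h1, ?_⟩
  funext n
  apply propext
  rw [hdec, iso_iff R (W n) rfl val nxt hv hn]

end Pool.Agent.TH114.Iso
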